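import Mathlib
import Pool.Agent.Y293.FA.Base

/-!
# Project FA: averages over well distributed directions (job FA-AVG)
-/

set_option autoImplicit false

namespace Pool.Agent.Y899.FA

open MeasureTheory Set Filter Topology
open scoped ENNReal
open Pool.Agent.Y293.FA

/-- the unit vector in the direction `θ` -/
noncomputable def uu (θ : ℝ) : ℂ := Complex.exp (θ * Complex.I)

theorem uu_eq (θ : ℝ) : uu θ = Real.cos θ + Real.sin θ * Complex.I := by
  rw [uu, Complex.exp_mul_I, Complex.ofReal_cos, Complex.ofReal_sin]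

theorem pr_eq (θ : ℝ) (z : ℂ) : pr θ z = (z * (starRingEnd ℂ) (uu θ)).re := by
  rw [uu_eq, pr, Complex.mul_re]
  have h1 : ((starRingEnd ℂ) ((Real.cos θ : ℂ) + (Real.sin θ : ℂ) * Complex.I)).re =
      Real.cos θ := by
    rw [Complex.conj_re, Complex.add_re, Complex.re_ofReal_mul, Complex.I_re, Complex.ofReal_re]
    ring
  have h2 : ((starRingEnd ℂ) ((Real.cos θ : ℂ) + (Real.sin θ : ℂ) * Complex.I)).im =
      -Real.sin θ := by
    rw [Complex.conj_im, Complex.add_im, Complex.im_ofReal_mul, Complex.I_im, Complex.ofReal_im]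
    ring
  rw [h1, h2]
  ring

theorem uu_sub_le (θ φ : ℝ) : ‖uu θ - uu φ‖ ≤ |θ - φ| := by
  have h1 : uu θ - uu φ = uu φ * (Complex.exp (Complex.I * ((θ - φ : ℝ) : ℂ)) - 1) := by
    rw [uu, uu, mul_sub, mul_one, ← Complex.exp_add]
    congr 2
    push_cast
    ring
  rw [h1, norm_mul]
  have h2 : ‖uu φ‖ = 1 := by
    rw [uu]
    exact Complex.norm_exp_ofReal_mul_I φ
  rw [h2, one_mul, ← Real.norm_eq_abs]
  exact Real.norm_exp_I_mul_ofReal_sub_one_le

theorem continuous_uu : Continuous uu := by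
  unfold uu
  fun_prop

theorem pe_sub_le (e z : ℂ) (θ : ℝ) : |pe e z - pr θ z| ≤ ‖z‖ * ‖uu θ - e‖ := by
  rw [pr_eq, pe, ← Complex.sub_re, ← mul_sub, ← map_sub]
  refine (Complex.abs_re_le_norm _).trans ?_
  rw [norm_mul, Complex.norm_conj, norm_sub_rev]

theorem measurable_pe (e : ℂ) : Measurable (pe e) := by
  unfold pe
  exact Complex.measurable_re.comp (measurable_id.mul_const _)

theorem measurable_pr (θ : ℝ) : Measurable (pr θ) := by
  unfold pr
  exact (Complex.measurable_re.mul_const _).add (Complex.measurable_im.mul_const _)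

/-- a unit vector is close to the `u θ` with `θ` in a set of measure at least `η` -/
theorem volume_ge (e : ℂ) (he : ‖e‖ = 1) (η : ℝ) (hη : 0 < η) (hη1 : η ≤ 1) :
    ENNReal.ofReal η ≤ volume ({θ : ℝ | ‖uu θ - e‖ ≤ η} ∩ Ioc 0 (2 * Real.pi)) := by
  have hpi := Real.pi_gt_three
  obtain ⟨φ, h0, h1, h2⟩ : ∃ φ : ℝ, 0 < φ ∧ φ ≤ 2 * Real.pi ∧ uu φ = e := by
    have ha : uu (Complex.arg e) = e := by
      rw [uu]
      have := Complex.norm_mul_exp_arg_mul_I e
      rwa [he, Complex.ofReal_one, one_mul] at this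
    by_cases hpos : 0 < Complex.arg e
    · exact ⟨_, hpos, (Complex.arg_le_pi e).trans (by linarith), ha⟩
    · refine ⟨Complex.arg e + 2 * Real.pi, ?_, by linarith, ?_⟩
      · have := Complex.neg_pi_lt_arg e
        linarith
      · rw [← ha]
        unfold uu
        push_cast
        rw [add_mul, Complex.exp_add, Complex.exp_two_pi_mul_I, mul_one]
        congr 2
        rw [← uu, ha]
  have key : ∀ c : ℝ, 0 ≤ c → c + η ≤ 2 * Real.pi → (∀ θ, c < θ → θ ≤ c + η → |θ - φ| ≤ η) →
      ENNReal.ofReal η ≤ volume ({θ : ℝ | ‖uu θ - e‖ ≤ η} ∩ Ioc 0 (2 * Real.pi)) := by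
    intro c hc0 hc1 hc
    have hv : volume (Ioc c (c + η)) = ENNReal.ofReal η := by
      rw [Real.volume_Ioc]
      congr 1
      ring
    rw [← hv]
    refine measure_mono fun θ hθ => ⟨?_, ?_, ?_⟩
    · show ‖uu θ - e‖ ≤ η
      rw [← h2]
      exact (uu_sub_le θ φ).trans (hc θ hθ.1 hθ.2)
    · exact lt_of_le_of_lt hc0 hθ.1
    · exact hθ.2.trans hc1
  by_cases h : η ≤ φ
  · refine key (φ - η) (by linarith) (by linarith) fun θ h3 h4 => ?_
    rw [abs_le]
    constructor <;> linarith
  · refine key φ h0.le (by linarith) fun θ h3 h4 => ?_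
    rw [abs_le]
    constructor <;> linarith

theorem sum_lintegral_le {α ι : Type*} [MeasurableSpace α] (μ : Measure α) (s : Finset ι)
    (f : ι → α → ℝ≥0∞) : ∑ i ∈ s, ∫⁻ x, f i x ∂μ ≤ ∫⁻ x, ∑ i ∈ s, f i x ∂μ := by
  classical
  induction s using Finset.induction_on with
  | empty => simp
  | insert i s hi ih =>
    rw [Finset.sum_insert hi]
    simp only [Finset.sum_insert hi]
    exact (add_le_add le_rfl ih).trans (le_lintegral_add _ _)

theorem avg : S_PERT → S_AVG := by
  classical
  intro hP ν _ R hR hνR ι _ p hp e he η K a b Q hη hη1 hK ha hab hQ hsum hint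
  have hpi := Real.pi_pos
  set D : ℝ → ℝ := fun θ => dd a b (ν.map (pr θ)) with hD
  have hD0 : ∀ θ, 0 ≤ D θ := fun θ => dd_nonneg _ _ _
  set c : ℝ := 12 * (R * η) / a ^ 2 with hc
  have hc0 : 0 ≤ c := by positivity
  set G : ℝ → ℝ≥0∞ := fun θ => ENNReal.ofReal (3 * D θ + c) with hG
  set T : ι → Set ℝ := fun i => {θ : ℝ | ‖uu θ - e i‖ ≤ η} with hT
  have hTm : ∀ i, MeasurableSet (T i) := fun i =>
    measurableSet_le ((continuous_uu.sub continuous_const).norm.measurable) measurable_const
  -- the estimate for one direction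
  have h1 : ∀ i, ∀ θ ∈ T i, dd a b (ν.map (pe (e i))) ≤ 3 * D θ + c := by
    intro i θ hθ
    have := hP ν (pe (e i)) (pr θ) (measurable_pe _) (measurable_pr θ) (R * η) ?_ a b ha hab
    · exact this
    · filter_upwards [hνR] with z hz
      refine (pe_sub_le (e i) z θ).trans ?_
      exact mul_le_mul hz hθ (norm_nonneg _) hR.le
  -- integrate over the directions near `e i`
  have h2 : ∀ i, ENNReal.ofReal (p i * dd a b (ν.map (pe (e i))) * η) ≤
      ∫⁻ θ in Ioc 0 (2 * Real.pi), (T i).indicator (fun θ => ENNReal.ofReal (p i) * G θ) θ := by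
    intro i
    have h3 : ∫⁻ θ in Ioc 0 (2 * Real.pi), (T i).indicator
        (fun _ => ENNReal.ofReal (p i * dd a b (ν.map (pe (e i))))) θ =
        ENNReal.ofReal (p i * dd a b (ν.map (pe (e i)))) *
          volume (T i ∩ Ioc 0 (2 * Real.pi)) := by
      rw [lintegral_indicator_const (hTm i), Measure.restrict_apply (hTm i)]
    have h4 : ∫⁻ θ in Ioc 0 (2 * Real.pi), (T i).indicator
        (fun _ => ENNReal.ofReal (p i * dd a b (ν.map (pe (e i))))) θ ≤
        ∫⁻ θ in Ioc 0 (2 * Real.pi),
          (T i).indicator (fun θ => ENNReal.ofReal (p i) * G θ) θ := by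
      refine lintegral_mono fun θ => ?_
      by_cases hθ : θ ∈ T i
      · rw [indicator_of_mem hθ, indicator_of_mem hθ, hG,
          ← ENNReal.ofReal_mul (hp i)]
        exact ENNReal.ofReal_le_ofReal (mul_le_mul_of_nonneg_left (h1 i θ hθ) (hp i))
      · rw [indicator_of_notMem hθ, indicator_of_notMem hθ]
    refine le_trans ?_ h4
    rw [h3, ENNReal.ofReal_mul (mul_nonneg (hp i) (dd_nonneg _ _ _))]
    exact mul_le_mul_right (volume_ge (e i) (he i) η hη hη1) _
  -- the overlap of the sets of directions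
  have h5 : ∀ θ, ∑ i, (T i).indicator (fun θ => ENNReal.ofReal (p i) * G θ) θ ≤
      ENNReal.ofReal (K * η) * G θ := by
    intro θ
    have e1 : ∑ i, (T i).indicator (fun θ => ENNReal.ofReal (p i) * G θ) θ =
        (∑ i, if θ ∈ T i then ENNReal.ofReal (p i) else 0) * G θ := by
      rw [Finset.sum_mul]
      refine Finset.sum_congr rfl fun i _ => ?_
      rw [indicator_apply]
      split_ifs
      · rfl
      · rw [zero_mul]
    rw [e1]
    refine mul_le_mul_left ?_ _
    by_cases hex : ∃ i, θ ∈ T i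
    · obtain ⟨i, hi⟩ := hex
      refine le_trans ?_ (ENNReal.ofReal_le_ofReal (hsum i))
      rw [ENNReal.ofReal_sum_of_nonneg]
      · refine Finset.sum_le_sum fun j _ => ?_
        by_cases hj : θ ∈ T j
        · have hd : ‖e j - e i‖ ≤ 2 * η := by
            have h6 : e j - e i = (uu θ - e i) - (uu θ - e j) := by ring
            rw [h6]
            refine (norm_sub_le _ _).trans ?_
            have h7 : ‖uu θ - e i‖ ≤ η := hi
            have h8 : ‖uu θ - e j‖ ≤ η := hj
            linarith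
          rw [if_pos hj, if_pos hd]
        · rw [if_neg hj]
          exact zero_le
      · intro j _
        split_ifs
        · exact hp j
        · exact le_rfl
    · have h6 : ∀ i, ¬ θ ∈ T i := fun i hi => hex ⟨i, hi⟩
      simp only [h6, if_false, Finset.sum_const_zero]
      exact zero_le
  -- the integral of `G`
  have h6 : ∫⁻ θ in Ioc 0 (2 * Real.pi), G θ ≤
      ENNReal.ofReal (3 * Q + 24 * Real.pi * R * η / a ^ 2) := by
    have e1 : ∀ θ, G θ = 3 * ENNReal.ofReal (D θ) + ENNReal.ofReal c := by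
      intro θ
      rw [hG]
      show ENNReal.ofReal (3 * D θ + c) = _
      rw [ENNReal.ofReal_add (mul_nonneg (by norm_num) (hD0 θ)) hc0,
        ENNReal.ofReal_mul (by norm_num)]
      congr 2
      norm_num
    simp only [e1]
    rw [lintegral_add_right _ measurable_const, lintegral_const_mul' _ _ (by norm_num),
      setLIntegral_const, Real.volume_Ioc]
    refine (add_le_add (mul_le_mul_right hint 3) le_rfl).trans ?_
    rw [← ENNReal.ofReal_mul hc0]
    have e2 : (3 : ℝ≥0∞) = ENNReal.ofReal 3 := by norm_num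
    rw [e2, ← ENNReal.ofReal_mul (by norm_num), ← ENNReal.ofReal_add (by positivity)
      (by rw [sub_zero]; positivity)]
    apply ENNReal.ofReal_le_ofReal
    rw [hc]
    apply le_of_eq
    ring
  -- conclusion
  have h7 : ENNReal.ofReal ((∑ i, p i * dd a b (ν.map (pe (e i)))) * η) ≤
      ENNReal.ofReal (K * η * (3 * Q + 24 * Real.pi * R * η / a ^ 2)) := by
    rw [Finset.sum_mul, ENNReal.ofReal_sum_of_nonneg]
    · refine (Finset.sum_le_sum fun i _ => h2 i).trans ?_
      refine (sum_lintegral_le _ _ _).trans ?_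
      refine (lintegral_mono fun θ => h5 θ).trans ?_
      rw [lintegral_const_mul' _ _ ENNReal.ofReal_ne_top,
        ENNReal.ofReal_mul (show 0 ≤ K * η by positivity)]
      exact mul_le_mul_right h6 _
    · intro i _
      exact mul_nonneg (mul_nonneg (hp i) (dd_nonneg _ _ _)) hη.le
  have h8 := (ENNReal.ofReal_le_ofReal_iff (by positivity)).1 h7
  have h9 : K * η * (3 * Q + 24 * Real.pi * R * η / a ^ 2) =
      K * (3 * Q + 24 * Real.pi * R * η / a ^ 2) * η := by ring
  rw [h9] at h8
  exact le_of_mul_le_mul_right h8 hη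

end Pool.Agent.Y899.FA
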